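import Pool.Agent.T6.H28.EG.Main2
import Pool.Agent.T6.H28.EG.TRA
import Pool.Agent.T6.H28.EG.ADD
import Pool.Agent.T6.H28.EG.ONE
import Pool.Agent.T6.H28.EG.LIN
import Pool.Agent.T6.H28.EG.KEY
import Pool.Agent.T6.H28.EG.KY2
import Pool.Agent.T6.H28.EG.FAM
import Pool.Agent.T6.H28.EG.FAB
import Pool.Agent.T6.H28.EG.TOP
import Pool.Agent.T6.H28.EG.SMA
import Pool.Agent.T6.H28.EG.SMH
import Pool.Agent.T6.H28.EG.SPC
import Pool.Agent.T6.H28.EG.CVB
import Pool.Agent.T6.H28.EG.CVH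
import Pool.Agent.T6.H28.EG.CVM
import Pool.Agent.T6.H28.EG.CVL
import Pool.Agent.T6.H28.EG.CVS
import Pool.Agent.T6.H28.EG.SP1
import Pool.Agent.T6.H28.EG.SMQ
import Pool.Agent.T6.H28.EG.F2G
import Pool.Agent.T6.H28.EG.F67
import Pool.Agent.T6.H28.EG.F68
import Pool.Agent.T6.H28.EG.F85
import Pool.Agent.T6.H28.EG.F88
import Pool.Agent.T6.H28.EG.F94
import Pool.Agent.T6.H28.EG.CVT
import Pool.Agent.T6.H28.EG.Defs5
import Pool.Agent.T6.H28.EG.M1

/-! Component degrees of eigenschemes of ternary forms. -/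

namespace Pool.Agent.Results.MP_3fe32a_ag.TernaryForms

open H28.EG MvPolynomial

/-- For every `d ≥ 3` and every `1 ≤ m ≤ d² - d + 1` there is a ternary form `f` of degree `d`
whose eigenscheme is finite and non-reduced and has a component of degree `m`. -/
theorem result (d m : ℕ) (hd : 3 ≤ d) (hm : 1 ≤ m) (hm' : m ≤ d ^ 2 - d + 1) :
    ∃ f : MvPolynomial (Fin 3) ℂ, f.IsHomogeneous d ∧
      {p : Projectivization ℂ (Fin 3 → ℂ) | IsEig f p.rep}.Finite ∧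
      (∃ w : Fin 3 → ℂ, w ≠ 0 ∧ ∃ h : (pointIdeal w).IsPrime,
        @locLength (pointIdeal w) h (eigenIdeal f) = m) ∧
      ∃ w : Fin 3 → ℂ, w ≠ 0 ∧ ∃ h : (pointIdeal w).IsPrime,
        2 ≤ @locLength (pointIdeal w) h (eigenIdeal f) := by
  rcases Nat.lt_or_ge m 2 with h | h
  · have hm1 : m = 1 := by omega
    subst hm1
    exact_mod_cast m1 d hd
  have hO := one add
  have hK := key add hO lin
  have hK2 := ky2 add hO lin
  obtain ⟨f, h1, h2, w, hw, hP, hl⟩ := tra d m (main3 (fam hK) (fab hK) (top hK)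
    (sma add hO lin) cvb cvh cvm cvl cvs (spc hK2) (smh add hO lin) (sp1 add hO lin) (smq add)
    (f2g add lin) (f67 add hO lin hK hK2) (f68 hK hK2) (f85 hK2) (f88 hK2) (f94 hK) cvt d m hd h
    hm')
  refine ⟨f, h1, h2, ⟨w, hw, hP, hl⟩, ⟨w, hw, hP, ?_⟩⟩
  rw [hl]
  exact_mod_cast h

end Pool.Agent.Results.MP_3fe32a_ag.TernaryForms
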